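import Mathlib
import Pool.Agent.H7.Phylo2

namespace Pool.Agent.Results.MP_ae7dce_co.Seven

open SimpleGraph

/-- A phylogenetic tree: leaves `Fin n` of degree 1, internal vertices `Fin m` of degree 3. -/
def IsPhylo {n m : ℕ} (G : SimpleGraph (Fin n ⊕ Fin m)) : Prop :=
  G.IsTree ∧ (∀ i, (G.neighborSet (.inl i)).ncard = 1) ∧ ∀ j, (G.neighborSet (.inr j)).ncard = 3

/-- A caterpillar: the internal vertices form a path on `n - 2` vertices. -/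
def IsCat {n m : ℕ} (G : SimpleGraph (Fin n ⊕ Fin m)) : Prop :=
  IsPhylo G ∧ m = n - 2 ∧ Nonempty (G.comap Sum.inr ≃g pathGraph m)

/-- Partitions of the leaf set obtained by deleting a set of edges. -/
def Parts {n m : ℕ} (G : SimpleGraph (Fin n ⊕ Fin m)) : Set (Setoid (Fin n)) :=
  {P | ∃ D : Set (Sym2 (Fin n ⊕ Fin m)),
    ∀ i j, P i j ↔ (G.deleteEdges D).Reachable (.inl i) (.inl j)}

/-- Number of common partitions with exactly `k` classes. -/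
noncomputable def common {n m m' : ℕ} (k : ℕ) (T : SimpleGraph (Fin n ⊕ Fin m))
    (F : SimpleGraph (Fin n ⊕ Fin m')) : ℕ :=
  {P | P ∈ Parts T ∧ P ∈ Parts F ∧ Nat.card (Quotient P) = k}.ncard

/-- Minimum over all pairs of phylogenetic trees. -/
noncomputable def s (n k : ℕ) : ℕ :=
  sInf {x | ∃ (m m' : ℕ) (T : SimpleGraph (Fin n ⊕ Fin m)) (F : SimpleGraph (Fin n ⊕ Fin m')),
    IsPhylo T ∧ IsPhylo F ∧ common k T F = x}

/-- Minimum over all pairs of caterpillars. -/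
noncomputable def c (n k : ℕ) : ℕ :=
  sInf {x | ∃ (m m' : ℕ) (T : SimpleGraph (Fin n ⊕ Fin m)) (F : SimpleGraph (Fin n ⊕ Fin m')),
    IsCat T ∧ IsCat F ∧ common k T F = x}

open Pool.Agent.H7.Phylo in
theorem result : s 7 4 < c 7 4 := by
  have hT : IsPhylo T0 := ⟨T0_tree, T0_deg⟩
  have hF : IsPhylo F0 := ⟨F0_tree, F0_deg⟩
  have fin : Finite (Setoid (Fin 7)) :=
    Finite.of_injective (fun P : Setoid (Fin 7) => P.r) (fun P Q h => Setoid.ext fun a b => by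
      have h' : P.r = Q.r := h
      rw [h'])
  set Z : Set (Setoid (Fin 7)) := {P | Triv P ∧ Nat.card (Quotient P) = 4} with hZ
  have h1 : s 7 4 ≤ Z.ncard := by
    have h0 : s 7 4 ≤ common 4 T0 F0 := Nat.sInf_le ⟨5, 5, T0, F0, hT, hF, rfl⟩
    refine h0.trans ?_
    refine Set.ncard_le_ncard ?_ (Set.toFinite _)
    rintro P ⟨⟨D, hD⟩, ⟨D', hD'⟩, h4⟩
    exact ⟨triv_of_common P D D' hD hD' h4, h4⟩
  refine lt_of_le_of_lt h1 ?_
  have hne : {x | ∃ (m m' : ℕ) (T : SimpleGraph (Fin 7 ⊕ Fin m)) (F : SimpleGraph (Fin 7 ⊕ Fin m')),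
      IsCat T ∧ IsCat F ∧ common 4 T F = x}.Nonempty :=
    ⟨_, 5, 5, T0, T0, ⟨hT, rfl, T0_path⟩, ⟨hT, rfl, T0_path⟩, rfl⟩
  obtain ⟨m, m', T, F, ⟨t1, rfl, ⟨φ⟩⟩, ⟨f1, rfl, ⟨ψ⟩⟩, h⟩ := Nat.sInf_mem hne
  unfold c
  rw [← h]
  obtain ⟨p1, x1, a1, b1⟩ := cat_struct T t1.1.connected t1.2.1 t1.2.2 φ
  obtain ⟨p2, x2, a2, b2⟩ := cat_struct F f1.1.connected f1.2.1 f1.2.2 ψ
  obtain ⟨P, g1, g2, g3, g4⟩ := extra p1 p2 x1 x2 a1 a2
  have tg : ∀ (Q : Setoid (Fin 7)) (p : Fin 7 → ℕ), Triv Q → Good Q p :=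
    fun Q p hQ a b c d _ h1 h2 h3 h4 _ _ _ _ => hQ a b c d h1 h2 h3 h4
  refine Set.ncard_lt_ncard ⟨?_, fun hs => ?_⟩ (Set.toFinite _)
  · rintro Q ⟨q1, q2⟩
    exact ⟨b1 Q (tg Q _ q1), b2 Q (tg Q _ q1), q2⟩
  · exact g4 (hs ⟨b1 P g1, b2 P g2, g3⟩).1

end Pool.Agent.Results.MP_ae7dce_co.Seven
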